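import Mathlib

/-!
# Unique codings on fat Sierpinski gaskets: never locally constant above the golden ratio
-/

namespace Pool.Agent.Results.MP_c4d56e_an.NeverLocallyConstant

open MeasureTheory Set

/-- The three digits `A = (0,0)`, `B = (1,0)`, `C = (0,1)`. -/
noncomputable def digit : Fin 3 → ℝ × ℝ := ![(0, 0), (1, 0), (0, 1)]

/-- The map `π_β`: the sequence `d 0, d 1, …` stands for `d_1, d_2, …`. -/
noncomputable def proj (β : ℝ) (d : ℕ → Fin 3) : ℝ × ℝ :=
  ∑' i : ℕ, (1 / β ^ (i + 1)) • digit (d i)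

/-- The set `𝐔_β` of points with exactly one coding. -/
def uniq (β : ℝ) : Set (ℝ × ℝ) := {x | ∃! d : ℕ → Fin 3, proj β d = x}

/-- The symbolic set of unique codings. -/
def Ut (β : ℝ) : Set (ℕ → Fin 3) := proj β ⁻¹' uniq β

/-- The map `β ↦ Ut β` on `(1,2)` is locally constant at `β`. -/
def LocConstAt (β : ℝ) : Prop :=
  ∃ ε > 0, ∀ β' ∈ Ioo (1 : ℝ) 2, |β' - β| < ε → Ut β' = Ut β

/-- The indicator of the letter `X` along `d`. -/
noncomputable def ind (X : Fin 3) (d : ℕ → Fin 3) (i : ℕ) : ℝ := if d i = X then 1 else 0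

lemma ind_nonneg (X : Fin 3) (d : ℕ → Fin 3) (i : ℕ) : 0 ≤ ind X d i := by
  unfold ind; split_ifs <;> norm_num

lemma ind_le_one (X : Fin 3) (d : ℕ → Fin 3) (i : ℕ) : ind X d i ≤ 1 := by
  unfold ind; split_ifs <;> norm_num

lemma summable_pow {β : ℝ} (hβ : 1 < β) : Summable fun i : ℕ => 1 / β ^ (i + 1) := by
  have h := (summable_geometric_of_lt_one (by positivity) (inv_lt_one_of_one_lt₀ hβ)).mul_left (β⁻¹)
  refine h.congr fun i => ?_
  have hb : β ≠ 0 := by linarith
  rw [inv_pow, pow_succ]; field_simp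

lemma summable_bdd {β : ℝ} (hβ : 1 < β) (t : ℕ → ℝ) (h0 : ∀ i, 0 ≤ t i) (h1 : ∀ i, t i ≤ 1) :
    Summable fun i : ℕ => t i / β ^ (i + 1) := by
  have hb : 0 < β := by linarith
  refine Summable.of_nonneg_of_le (fun i => by have := h0 i; positivity) (fun i => ?_)
    (summable_pow hβ)
  exact div_le_div_of_nonneg_right (h1 i) (by positivity)

/-- weighted sums of tails -/
noncomputable def S (β : ℝ) (t : ℕ → ℝ) : ℝ := ∑' i : ℕ, t i / β ^ (i + 1)

lemma S_succ {β : ℝ} (hβ : 1 < β) (t : ℕ → ℝ) (h0 : ∀ i, 0 ≤ t i) (h1 : ∀ i, t i ≤ 1) :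
    S β t = t 0 / β + S β (fun i => t (i + 1)) / β := by
  unfold S
  rw [(summable_bdd hβ t h0 h1).tsum_eq_zero_add]
  have hb : β ≠ 0 := by linarith
  rw [← tsum_div_const]
  congr 1
  · simp
  · refine tsum_congr fun i => ?_
    rw [pow_succ β (i + 1)]; field_simp

lemma S_split {β : ℝ} (hβ : 1 < β) (t : ℕ → ℝ) (h0 : ∀ i, 0 ≤ t i) (h1 : ∀ i, t i ≤ 1) (n : ℕ) :
    S β t = ∑ i ∈ Finset.range n, t i / β ^ (i + 1) + S β (fun i => t (n + i)) / β ^ n := by
  have hb : β ≠ 0 := by linarith
  unfold S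
  rw [← (summable_bdd hβ t h0 h1).sum_add_tsum_nat_add n, ← tsum_div_const]
  congr 1
  refine tsum_congr fun i => ?_
  rw [add_comm i n, show n + i + 1 = (i + 1) + n by ring, pow_add]
  field_simp

lemma proj_fst {β : ℝ} (hβ : 1 < β) (d : ℕ → Fin 3) : (proj β d).1 = S β (ind 1 d) := by
  have hs : Summable fun i : ℕ => (1 / β ^ (i + 1)) • digit (d i) := by
    have hb : 0 < β := by linarith
    refine Summable.of_norm_bounded (summable_pow hβ) (fun i => ?_)
    rw [norm_smul, Real.norm_of_nonneg (by positivity)]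
    have : ‖digit (d i)‖ ≤ 1 := by
      have : ∀ j : Fin 3, ‖digit j‖ ≤ 1 := by
        intro j
        fin_cases j <;> simp [digit, Prod.norm_def]
      exact this _
    have h2 : 0 ≤ 1 / β ^ (i + 1) := by positivity
    nlinarith
  unfold proj S
  rw [show (∑' i : ℕ, (1 / β ^ (i + 1)) • digit (d i)).1
    = (ContinuousLinearMap.fst ℝ ℝ ℝ) (∑' i : ℕ, (1 / β ^ (i + 1)) • digit (d i)) from rfl,
    ContinuousLinearMap.map_tsum _ hs]
  refine tsum_congr fun i => ?_
  have : ∀ j : Fin 3, (digit j).1 = if j = 1 then 1 else 0 := by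
    intro j; fin_cases j <;> simp [digit]
  simp only [map_smul, ContinuousLinearMap.coe_fst', this, ind, smul_eq_mul]
  ring

lemma proj_snd {β : ℝ} (hβ : 1 < β) (d : ℕ → Fin 3) : (proj β d).2 = S β (ind 2 d) := by
  have hs : Summable fun i : ℕ => (1 / β ^ (i + 1)) • digit (d i) := by
    have hb : 0 < β := by linarith
    refine Summable.of_norm_bounded (summable_pow hβ) (fun i => ?_)
    rw [norm_smul, Real.norm_of_nonneg (by positivity)]
    have : ‖digit (d i)‖ ≤ 1 := by
      have : ∀ j : Fin 3, ‖digit j‖ ≤ 1 := by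
        intro j
        fin_cases j <;> simp [digit, Prod.norm_def]
      exact this _
    have h2 : 0 ≤ 1 / β ^ (i + 1) := by positivity
    nlinarith
  unfold proj S
  rw [show (∑' i : ℕ, (1 / β ^ (i + 1)) • digit (d i)).2
    = (ContinuousLinearMap.snd ℝ ℝ ℝ) (∑' i : ℕ, (1 / β ^ (i + 1)) • digit (d i)) from rfl,
    ContinuousLinearMap.map_tsum _ hs]
  refine tsum_congr fun i => ?_
  have : ∀ j : Fin 3, (digit j).2 = if j = 2 then 1 else 0 := by
    intro j; fin_cases j <;> simp [digit]
  simp only [map_smul, ContinuousLinearMap.coe_snd', this, ind, smul_eq_mul]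
  ring

lemma S_sum {β : ℝ} (hβ : 1 < β) (d : ℕ → Fin 3) :
    S β (ind 0 d) + S β (ind 1 d) + S β (ind 2 d) = S β (fun _ => 1) := by
  unfold S
  rw [← (summable_bdd hβ _ (ind_nonneg 0 d) (ind_le_one 0 d)).tsum_add
    (summable_bdd hβ _ (ind_nonneg 1 d) (ind_le_one 1 d)),
    ← ((summable_bdd hβ _ (ind_nonneg 0 d) (ind_le_one 0 d)).add
    (summable_bdd hβ _ (ind_nonneg 1 d) (ind_le_one 1 d))).tsum_add
    (summable_bdd hβ _ (ind_nonneg 2 d) (ind_le_one 2 d))]
  refine tsum_congr fun i => ?_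
  rw [← add_div, ← add_div]
  congr 1
  unfold ind
  generalize d i = j
  fin_cases j <;> simp

lemma S_ind_eq {β : ℝ} (hβ : 1 < β) {d e : ℕ → Fin 3} (h : proj β e = proj β d) (X : Fin 3) :
    S β (ind X e) = S β (ind X d) := by
  have h1 : S β (ind 1 e) = S β (ind 1 d) := by rw [← proj_fst hβ, ← proj_fst hβ, h]
  have h2 : S β (ind 2 e) = S β (ind 2 d) := by rw [← proj_snd hβ, ← proj_snd hβ, h]
  have h3 := S_sum hβ d
  have h4 := S_sum hβ e
  have h0 : S β (ind 0 e) = S β (ind 0 d) := by linarith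
  fin_cases X
  · exact h0
  · exact h1
  · exact h2

/-- The criterion for unique codings. -/
lemma mem_Ut {β : ℝ} (hβ : 1 < β) (d : ℕ → Fin 3)
    (h : ∀ n, ∀ X, d n ≠ X → S β (fun i => ind X d (n + 1 + i)) < 1) : d ∈ Ut β := by
  refine ⟨d, rfl, ?_⟩
  intro e he
  by_contra hne
  have hex : ∃ n, e n ≠ d n := by
    by_contra hc
    push Not at hc
    exact hne (funext hc)
  classical
  obtain ⟨n, hn, hmin⟩ : ∃ n, e n ≠ d n ∧ ∀ m < n, e m = d m :=
    ⟨Nat.find hex, Nat.find_spec hex, fun m hm => by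
      have := Nat.find_min hex hm
      push Not at this
      exact this⟩
  have hb : 0 < β := by linarith
  have hS := S_ind_eq hβ he (e n)
  rw [S_split hβ _ (ind_nonneg _ e) (ind_le_one _ e) n,
    S_split hβ _ (ind_nonneg _ d) (ind_le_one _ d) n] at hS
  have hsum : ∑ i ∈ Finset.range n, ind (e n) e i / β ^ (i + 1)
      = ∑ i ∈ Finset.range n, ind (e n) d i / β ^ (i + 1) := by
    refine Finset.sum_congr rfl fun i hi => ?_
    rw [Finset.mem_range] at hi
    unfold ind
    rw [hmin i hi]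
  rw [hsum] at hS
  have hS2 : S β (fun i => ind (e n) e (n + i)) = S β (fun i => ind (e n) d (n + i)) := by
    have := add_left_cancel hS
    have hp : β ^ n ≠ 0 := by positivity
    field_simp at this
    exact this
  rw [S_succ hβ _ (fun i => ind_nonneg _ e _) (fun i => ind_le_one _ e _),
    S_succ hβ _ (fun i => ind_nonneg _ d _) (fun i => ind_le_one _ d _)] at hS2
  have h1 : ind (e n) e (n + 0) = 1 := by simp [ind]
  have h2 : ind (e n) d (n + 0) = 0 := by
    simp only [ind, add_zero, ite_eq_right_iff]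
    intro hc; exact absurd hc.symm hn
  rw [h1, h2] at hS2
  have h3 : 0 ≤ S β (fun i => ind (e n) e (n + (i + 1))) := by
    unfold S
    exact tsum_nonneg fun i => by have := ind_nonneg (e n) e (n + (i + 1)); positivity
  have h4 := h n (e n) (fun hc => hn hc.symm)
  have h5 : S β (fun i => ind (e n) d (n + (i + 1))) = S β (fun i => ind (e n) d (n + 1 + i)) := by
    congr 1; funext i; congr 1; ring
  rw [h5] at hS2
  field_simp at hS2
  linarith

/-- sequences without two adjacent ones -/
lemma S_sparse {β : ℝ} (hβ : Real.goldenRatio < β) (t : ℕ → ℝ) (h0 : ∀ i, 0 ≤ t i)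
    (h1 : ∀ i, t i ≤ 1) (h2 : ∀ i, t i + t (i + 1) ≤ 1) : S β t < 1 := by
  have hg := Real.one_lt_goldenRatio
  have hb : 1 < β := by linarith
  have e1 := S_succ hb t h0 h1
  have hle : S β t + S β (fun i => t (i + 1)) ≤ S β (fun _ => 1) := by
    unfold S
    rw [← (summable_bdd hb t h0 h1).tsum_add
      (summable_bdd hb _ (fun i => h0 (i + 1)) (fun i => h1 (i + 1)))]
    refine Summable.tsum_le_tsum (fun i => ?_) ?_ ?_
    · rw [← add_div]
      exact div_le_div_of_nonneg_right (h2 i) (by positivity)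
    · exact (summable_bdd hb t h0 h1).add
        (summable_bdd hb _ (fun i => h0 (i + 1)) (fun i => h1 (i + 1)))
    · exact summable_bdd hb _ (fun _ => by norm_num) (fun _ => le_rfl)
  have e2 := S_succ hb (fun _ => 1) (fun _ => by norm_num) (fun _ => le_rfl)
  have hg2 : 0 < β ^ 2 - β - 1 := by
    have := Real.goldenRatio_sq
    nlinarith
  have ht0 := h1 0
  have hb0 : 0 < β := by linarith
  field_simp at e1 e2
  have e3 : S β (fun _ => 1) * (β - 1) = 1 := by
    have : S β (fun _ => (1:ℝ)) = S β (fun _ => 1) := rfl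
    linarith
  by_contra hc
  push Not at hc
  nlinarith

/-! ### The greedy expansion of `1` -/

/-- remainders of the greedy expansion of `1` in base `β` -/
noncomputable def rem (β : ℝ) : ℕ → ℝ
  | 0 => 1
  | n + 1 => if 1 ≤ β * rem β n then β * rem β n - 1 else β * rem β n

/-- greedy digits -/
noncomputable def dig (β : ℝ) (n : ℕ) : ℝ := if 1 ≤ β * rem β n then 1 else 0

lemma rem_succ (β : ℝ) (n : ℕ) : rem β (n + 1) = β * rem β n - dig β n := by
  rw [rem, dig]
  split_ifs <;> simp

lemma rem_mem {β : ℝ} (h1 : 1 < β) (h2 : β < 2) (n : ℕ) : 0 ≤ rem β n ∧ rem β n ≤ 1 := by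
  induction n with
  | zero => simp [rem]
  | succ n ih =>
    rw [rem]
    split_ifs with h
    · constructor
      · linarith
      · nlinarith [ih.1, ih.2]
    · constructor
      · exact mul_nonneg (by linarith) ih.1
      · linarith

lemma dig_nonneg (β : ℝ) (n : ℕ) : 0 ≤ dig β n := by unfold dig; split_ifs <;> norm_num

lemma dig_le (β : ℝ) (n : ℕ) : dig β n ≤ 1 := by unfold dig; split_ifs <;> norm_num

lemma rem_partial {β : ℝ} (h1 : 1 < β) (n k : ℕ) :
    rem β n = ∑ i ∈ Finset.range k, dig β (n + i) / β ^ (i + 1) + rem β (n + k) / β ^ k := by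
  have hb : 0 < β := by linarith
  induction k with
  | zero => simp
  | succ k ih =>
    rw [Finset.sum_range_succ, ih, ← add_assoc n k 1, rem_succ]
    field_simp
    ring

lemma S_dig {β : ℝ} (h1 : 1 < β) (h2 : β < 2) (n : ℕ) :
    S β (fun i => dig β (n + i)) = rem β n := by
  have hb : 0 < β := by linarith
  have hs := summable_bdd h1 (fun i => dig β (n + i)) (fun i => dig_nonneg β _)
    (fun i => dig_le β _)
  have ht := hs.hasSum.tendsto_sum_nat
  have ht2 : Filter.Tendsto (fun k => rem β n - rem β (n + k) / β ^ k) Filter.atTop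
      (nhds (rem β n - 0)) := by
    refine Filter.Tendsto.const_sub _ ?_
    have hz : Filter.Tendsto (fun k : ℕ => (β⁻¹) ^ k) Filter.atTop (nhds 0) :=
      tendsto_pow_atTop_nhds_zero_of_lt_one (by positivity) (inv_lt_one_of_one_lt₀ h1)
    refine squeeze_zero (fun k => ?_) (fun k => ?_) hz
    · have := (rem_mem h1 h2 (n + k)).1
      positivity
    · rw [inv_pow, ← one_div]
      exact div_le_div_of_nonneg_right (rem_mem h1 h2 (n + k)).2 (by positivity)
  have he : (fun k => ∑ i ∈ Finset.range k, dig β (n + i) / β ^ (i + 1))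
      = fun k => rem β n - rem β (n + k) / β ^ k := by
    funext k
    have := rem_partial h1 n k
    linarith
  rw [he] at ht
  rw [sub_zero] at ht2
  exact tendsto_nhds_unique ht ht2

/-- larger bases give smaller sums -/
lemma S_lt {β β' : ℝ} (h1 : 1 < β) (h2 : β < β') (t : ℕ → ℝ) (h0 : ∀ i, 0 ≤ t i)
    (ht : ∀ i, t i ≤ 1) (hS : S β t ≤ 1) : S β' t < 1 := by
  have hb : 0 < β := by linarith
  have hb' : 1 < β' := by linarith
  by_cases hz : ∃ k, t k ≠ 0
  · obtain ⟨k, hk⟩ := hz
    have hk' : 0 < t k := lt_of_le_of_ne (h0 k) (Ne.symm hk)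
    have : S β' t < S β t := by
      unfold S
      refine Summable.tsum_lt_tsum (i := k) (fun i => ?_) ?_ (summable_bdd hb' t h0 ht)
        (summable_bdd h1 t h0 ht)
      · refine div_le_div_of_nonneg_left (h0 i) (by positivity) ?_
        exact pow_le_pow_left₀ hb.le h2.le _
      · refine div_lt_div_of_pos_left hk' (by positivity) ?_
        exact pow_lt_pow_left₀ h2 hb.le (by omega)
    linarith
  · push Not at hz
    have : S β' t = 0 := by
      unfold S
      simp [hz]
    rw [this]; norm_num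

/-! ### The sequence -/

/-- parity of the number of zeros among the first `n` greedy digits -/
noncomputable def par (β : ℝ) : ℕ → Bool
  | 0 => true
  | n + 1 => if 1 ≤ β * rem β n then par β n else !(par β n)

/-- the coding: `A`, then `B` at the greedy ones, and `A`, `C` alternately at the greedy zeros -/
noncomputable def seq (β : ℝ) : ℕ → Fin 3
  | 0 => 0
  | n + 1 => if 1 ≤ β * rem β n then 1 else (if par β n then 2 else 0)

lemma ind_one (β : ℝ) (n : ℕ) : ind 1 (seq β) (n + 1) = dig β n := by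
  unfold ind dig
  rw [seq]
  by_cases h : 1 ≤ β * rem β n
  · simp [h]
  · by_cases h2 : par β n <;> simp [h, h2]

lemma ind_adj (β : ℝ) (X : Fin 3) (hX : X ≠ 1) (n : ℕ) :
    ind X (seq β) (n + 1) + ind X (seq β) (n + 1 + 1) ≤ 1 := by
  unfold ind
  rw [seq, seq, par]
  by_cases h : 1 ≤ β * rem β n
  · simp only [h, if_true]
    rw [if_neg (Ne.symm hX)]
    split_ifs <;> norm_num
  · by_cases h2 : 1 ≤ β * rem β (n + 1)
    · simp only [h, h2, if_true]
      rw [if_neg (Ne.symm hX)]
      split_ifs <;> norm_num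
    · by_cases h3 : par β n
      · simp only [h, h2, h3]
        fin_cases X <;> simp
      · simp only [h, h2, h3]
        fin_cases X <;> simp

lemma seq_mem {β β' : ℝ} (h1 : Real.goldenRatio ≤ β) (h2 : β < 2) (h3 : β < β') :
    seq β ∈ Ut β' := by
  have hg := Real.one_lt_goldenRatio
  have hb : 1 < β := by linarith
  refine mem_Ut (by linarith) _ ?_
  intro n X hX
  by_cases hX1 : X = 1
  · subst hX1
    have he : (fun i => ind 1 (seq β) (n + 1 + i)) = fun i => dig β (n + i) := by
      funext i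
      rw [show n + 1 + i = (n + i) + 1 by ring, ind_one]
    rw [he]
    refine S_lt hb h3 _ (fun i => dig_nonneg _ _) (fun i => dig_le _ _) ?_
    rw [S_dig hb h2]
    exact (rem_mem hb h2 n).2
  · refine S_sparse (lt_of_le_of_lt h1 h3) _ (fun i => ind_nonneg _ _ _)
      (fun i => ind_le_one _ _ _) (fun i => ?_)
    have := ind_adj β X hX1 (n + i)
    rw [show n + 1 + i = n + i + 1 by ring, show n + 1 + (i + 1) = n + i + 1 + 1 by ring]
    exact this

/-- the second coding in base `β` -/
noncomputable def seq' (β : ℝ) : ℕ → Fin 3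
  | 0 => 1
  | n + 1 => if 1 ≤ β * rem β n then 0 else (if par β n then 2 else 0)

lemma seq_not_mem {β : ℝ} (hb : 1 < β) (h2 : β < 2) : seq β ∉ Ut β := by
  intro hmem
  obtain ⟨e, he, huniq⟩ := hmem
  have hb0 : 0 < β := by linarith
  have hp : proj β (seq' β) = proj β (seq β) := by
    refine Prod.ext ?_ ?_
    · rw [proj_fst hb, proj_fst hb, S_succ hb _ (ind_nonneg _ _) (ind_le_one _ _),
        S_succ hb _ (ind_nonneg _ (seq β)) (ind_le_one _ _)]
      have e1 : S β (fun i => ind 1 (seq β) (i + 1)) = 1 := by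
        have : (fun i => ind 1 (seq β) (i + 1)) = fun i => dig β (0 + i) := by
          funext i; rw [ind_one, zero_add]
        rw [this, S_dig hb h2]; rfl
      have e2 : S β (fun i => ind 1 (seq' β) (i + 1)) = 0 := by
        unfold S
        have : ∀ i, ind 1 (seq' β) (i + 1) = 0 := by
          intro i
          unfold ind
          rw [seq']
          by_cases h : 1 ≤ β * rem β i
          · simp [h]
          · by_cases h2 : par β i <;> simp [h, h2]
        simp [this]
      rw [e1, e2]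
      simp [ind, seq, seq']
    · rw [proj_snd hb, proj_snd hb]
      congr 1
      funext i
      unfold ind
      cases i with
      | zero => simp [seq, seq']
      | succ n =>
        rw [seq, seq']
        by_cases h : 1 ≤ β * rem β n <;> simp [h]
  have h1 := huniq (seq β) rfl
  have h3 := huniq (seq' β) hp
  have h4 : seq β 0 = seq' β 0 := by rw [h1, h3]
  simp [seq, seq'] at h4

/-- **Answer to MP_c4d56e_an (no).** -/
theorem result :
    (∀ β β' : ℝ, Real.goldenRatio ≤ β → β < β' → β' < 2 → Ut β' ≠ Ut β) ∧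
    (∀ β : ℝ, Real.goldenRatio ≤ β → β < 2 → ¬ LocConstAt β) ∧
    ¬ (∀ᵐ β ∂(volume.restrict (Ioo (1 : ℝ) 2)), LocConstAt β) := by
  have key : ∀ β β' : ℝ, Real.goldenRatio ≤ β → β < β' → β' < 2 → Ut β' ≠ Ut β := by
    intro β β' h1 h2 h3 h
    have hg := Real.one_lt_goldenRatio
    have hm := seq_mem h1 (by linarith) h2
    rw [h] at hm
    exact seq_not_mem (by linarith) (by linarith) hm
  have hloc : ∀ β : ℝ, Real.goldenRatio ≤ β → β < 2 → ¬ LocConstAt β := by
    rintro β h1 h2 ⟨ε, hε, h⟩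
    have hg := Real.one_lt_goldenRatio
    obtain ⟨β', hb1, hb2⟩ := exists_between (show β < min (β + ε) 2 from lt_min (by linarith) h2)
    have hb3 : β' < β + ε := lt_of_lt_of_le hb2 (min_le_left _ _)
    have hb4 : β' < 2 := lt_of_lt_of_le hb2 (min_le_right _ _)
    refine key β β' h1 hb1 hb4 (h β' ⟨by linarith, hb4⟩ ?_)
    rw [abs_of_pos (by linarith)]
    linarith
  refine ⟨key, hloc, ?_⟩
  intro hae
  rw [ae_restrict_iff' measurableSet_Ioo] at hae
  have hlt := Real.goldenRatio_lt_two
  have h0 : volume (Ioo Real.goldenRatio 2) = 0 := by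
    refine measure_mono_null ?_ (ae_iff.mp hae)
    intro x hx
    simp only [Set.mem_ofPred_eq, Classical.not_imp]
    have hg := Real.one_lt_goldenRatio
    exact ⟨⟨by linarith [hx.1], hx.2⟩, hloc x hx.1.le hx.2⟩
  rw [Real.volume_Ioo, ENNReal.ofReal_eq_zero] at h0
  linarith

end Pool.Agent.Results.MP_c4d56e_an.NeverLocallyConstant
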